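import Pool.Agent.N984.QX.Stm

/-!
# Project QX (helper984): quantum extremal numbers, page MP_450e1b_mp.
Second part: the statements for the upper bounds.
-/

set_option autoImplicit false

namespace Pool.Agent.N984.QX

/-- The sign. -/
noncomputable def sgn (z : ZMod 2) : ℂ := if z = 0 then 1 else -1

/-- The expectation of the Pauli operator of `v`: `⟨ψ, T_v ψ⟩` with
`(T_v ψ)(x) = (-1)^(b·x) ψ(x + a)`, `a i = (v i).1`, `b i = (v i).2`. -/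
noncomputable def ev {n : ℕ} (ψ : (Fin n → ZMod 2) → ℂ) (v : Vc n) : ℂ :=
  ∑ x, star (ψ x) * (sgn (∑ i, (v i).2 * x i) * ψ (fun i => x i + (v i).1))

open Classical in
/-- `2^|X|` times the purity of the reduced state on `X`: the sum of the squares of the
expectations of the Pauli operators supported in `X`. -/
noncomputable def W {n : ℕ} (ψ : (Fin n → ZMod 2) → ℂ) (X : Finset (Fin n)) : ℝ :=
  ∑ v ∈ Finset.univ.filter (fun v : Vc n => ∀ i, i ∉ X → v i = 0), ‖ev ψ v‖ ^ 2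

/-- EV0. -/
def S_EV0 : Prop := ∀ (n : ℕ) (ψ : (Fin n → ZMod 2) → ℂ), Normalised ψ → ev ψ 0 = 1

/-- WEV. If `ψ` is maximally mixed on `X` then the expectations of the nontrivial Pauli operators
supported in `X` vanish. -/
def S_WEV : Prop :=
  ∀ (n : ℕ) (ψ : (Fin n → ZMod 2) → ℂ) (X : Finset (Fin n)), MaxMixed ψ X →
    ∀ v : Vc n, (∀ i, i ∉ X → v i = 0) → v ≠ 0 → ev ψ v = 0

/-- DUAL. The purities of the reduced states on `X` and on its complement agree. -/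
def S_DUAL : Prop :=
  ∀ (n : ℕ) (ψ : (Fin n → ZMod 2) → ℂ) (X : Finset (Fin n)),
    (2 : ℝ) ^ Xᶜ.card * W ψ X = 2 ^ X.card * W ψ Xᶜ

/-- SUBM. Subsets of maximally mixed sets. -/
def S_SUBM : Prop :=
  ∀ (n : ℕ) (ψ : (Fin n → ZMod 2) → ℂ) (X Y : Finset (Fin n)), X ⊆ Y → MaxMixed ψ Y → MaxMixed ψ X

/-- CORE. A local obstruction, `n = 2k + c`, `k = |D| + r`. -/
def S_CORE : Prop :=
  ∀ (n r c : ℕ) (D S : Finset (Fin n)) (ψ : (Fin n → ZMod 2) → ℂ), Normalised ψ → Disjoint D S →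
    S.card = r + c + 1 → n = 2 * (D.card + r) + c →
    (∀ B, B ⊆ S → B.card = r → MaxMixed ψ (D ∪ B)) →
    (∀ i ∈ S, MaxMixed ψ (insert i (D ∪ S)ᶜ)) → MaxMixed ψ (D ∪ S)ᶜ →
    ((r + c + 1 : ℕ) : ℝ) * (2 ^ c - 1) ≤ c * (2 ^ (c + 2) - 1)

/-- CORE0. The local obstruction for `n = 2k`, `k = |D| + 6`: three of the 28 sets are bad. -/
def S_CORE0 : Prop :=
  ∀ (n : ℕ) (D S : Finset (Fin n)) (ψ : (Fin n → ZMod 2) → ℂ), Normalised ψ → Disjoint D S →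
    S.card = 8 → n = 2 * (D.card + 6) →
    3 ≤ Set.ncard {B : Finset (Fin n) | B ⊆ S ∧ B.card = 6 ∧ ¬ MaxMixed ψ (D ∪ B)}

/-- AV. Averaging over permutations. -/
def S_AV : Prop :=
  ∀ (n k β : ℕ) (I : Type) [Fintype I] (A : I → Finset (Fin n)) (Bad : Finset (Fin n) → Prop),
    (∀ t, (A t).card = k) →
    (∀ p : Equiv.Perm (Fin n), β ≤ Set.ncard {t | Bad ((A t).map p.toEmbedding)}) →
    β * n.choose k ≤ Fintype.card I * Set.ncard {X : Finset (Fin n) | X.card = k ∧ Bad X}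

/-- ATT. The maximum is attained. -/
def S_ATT : Prop :=
  ∀ n k : ℕ, ∃ ψ : (Fin n → ZMod 2) → ℂ, Normalised ψ ∧
    Qex n k + Set.ncard {X : Finset (Fin n) | X.card = k ∧ ¬ MaxMixed ψ X} = n.choose k

/-- UP0. The upper bound for `n = 2k`. -/
def S_UP0 : Prop := ∀ k : ℕ, 6 ≤ k → 28 * Qex (2 * k) k ≤ 25 * (2 * k).choose k

/-- UPC. The upper bound for `n = 2k + c`. -/
def S_UPC : Prop :=
  ∀ c k : ℕ, 1 ≤ c → 6 * c ≤ k →
    (Qex (2 * k + c) k : ℝ) ≤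
      (1 - 1 / ((7 * c + 1).choose (c + 1) + (7 * c + 1) : ℕ)) * (2 * k + c).choose k

/-- IFF. For `n → ∞`, `Q_ex(n,k)` is asymptotically equal to `n choose k` iff `n - 2k → ∞`
(`2k ≤ n`). -/
def S_IFF : Prop :=
  (∀ ε : ℝ, 0 < ε → ∃ D : ℕ, ∀ n k : ℕ, 2 * k + D ≤ n → (1 - ε) * (n.choose k) ≤ Qex n k) ∧
  ∀ D : ℕ, ∃ ε : ℝ, 0 < ε ∧ ∃ N : ℕ, ∀ n k : ℕ, N ≤ n → 2 * k ≤ n → n ≤ 2 * k + D →
    Qex n k ≤ (1 - ε) * (n.choose k)

end Pool.Agent.N984.QX
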