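import Pool.Agent.N984.QX.Stm

/-!
# Leaf AVG of project QX (helper984): averaging over the Hermitian self-dual codes
-/

set_option autoImplicit false

namespace Pool.Agent.N984.QX

open Classical in
theorem t_AVG (hT : S_TRANS) (hC : S_CARD) (hN : S_NE) (hI : S_ISO) : S_AVG := by
  intro n k hn
  have hfin : Finite (Submodule (ZMod 2) (Vc n)) :=
    Finite.of_injective (fun C : Submodule (ZMod 2) (Vc n) => (C : Set (Vc n)))
      SetLike.coe_injective
  set L : Finset (Submodule (ZMod 2) (Vc n)) := (Set.toFinite (Herm n)).toFinset with hL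
  have hmem : ∀ C, C ∈ L ↔ C ∈ Herm n := fun C => Set.Finite.mem_toFinset _
  have hLne : L.Nonempty := by
    obtain ⟨C, h⟩ := hN n hn
    exact ⟨C, (hmem C).mpr h⟩
  have hLpos : 0 < L.card := Finset.card_pos.mpr hLne
  set U : Finset (Vc n) := Finset.univ.filter (fun v => v ≠ 0 ∧ B v (J v) = 0) with hU
  have hUmem : ∀ v, v ∈ U ↔ v ≠ 0 ∧ B v (J v) = 0 := fun v => by simp [hU]
  set N : Vc n → ℕ := fun v => (L.filter (fun C => v ∈ C)).card with hNdef
  -- all counts agree
  have hNeq : ∀ v ∈ U, ∀ w ∈ U, N v = N w := by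
    intro v hv w hw
    have h1 := hT n v w ((hUmem v).mp hv).1 ((hUmem w).mp hw).1 ((hUmem v).mp hv).2
      ((hUmem w).mp hw).2
    have h2 : ∀ u : Vc n, Set.ncard {C ∈ Herm n | u ∈ C} = N u := by
      intro u
      change _ = (L.filter (fun C => u ∈ C)).card
      rw [← Set.ncard_coe_finset]
      congr 1
      ext C
      simp [hmem]
    rwa [h2, h2] at h1
  -- isotropy of code words
  have hiso : ∀ C ∈ L, ∀ v ∈ C, B v (J v) = 0 := by
    intro C hCL v hv
    have h1 := (hmem C).mp hCL
    exact ((h1.1 v).mp hv) _ (h1.2 v hv)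
  have hcardC : ∀ C ∈ L, (U.filter (fun v => v ∈ C)).card + 1 = 2 ^ n := by
    intro C hCL
    have h1 := hC n C ((hmem C).mp hCL).1
    rw [← h1]
    have h2 : Nat.card C = (Finset.univ.filter (fun v => v ∈ C)).card :=
      (Nat.card_eq_fintype_card (α := {v // v ∈ C})).trans (Fintype.card_subtype (fun v => v ∈ C))
    rw [h2]
    have h3 : Finset.univ.filter (fun v => v ∈ C) = insert 0 (U.filter (fun v => v ∈ C)) := by
      ext v
      simp only [Finset.mem_filter, Finset.mem_univ, true_and, Finset.mem_insert, hUmem]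
      constructor
      · intro hv
        by_cases h0 : v = 0
        · exact Or.inl h0
        · exact Or.inr ⟨⟨h0, hiso C hCL v hv⟩, hv⟩
      · rintro (h0 | h0)
        · rw [h0]; exact zero_mem _
        · exact h0.2
    rw [h3, Finset.card_insert_of_notMem]
    intro h0
    exact ((hUmem 0).mp (Finset.mem_filter.mp h0).1).1 rfl
  have hsumN : ∑ v ∈ U, N v = L.card * (2 ^ n - 1) := by
    have h1 : ∑ v ∈ U, N v = ∑ C ∈ L, (U.filter (fun v => v ∈ C)).card := by
      simp only [hNdef, Finset.card_filter]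
      exact Finset.sum_comm
    rw [h1, Finset.sum_congr rfl (fun C hCL => (by
      have := hcardC C hCL
      omega : (U.filter (fun v => v ∈ C)).card = 2 ^ n - 1)), Finset.sum_const, smul_eq_mul]
  -- the number of isotropic vectors supported in A
  have hSA : ∀ A : Finset (Fin n), 2 * (((U.filter (fun v => ∀ i, i ∉ A → v i = 0)).card : ℤ) + 1) =
      4 ^ A.card + (-2) ^ A.card := by
    intro A
    rw [← hI n A]
    congr 1
    have h1 : {v : Vc n | (∀ i, i ∉ A → v i = 0) ∧ B v (J v) = 0} =
        ((insert 0 (U.filter (fun v => ∀ i, i ∉ A → v i = 0)) : Finset (Vc n)) : Set (Vc n)) := by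
      ext v
      simp only [Set.mem_ofPred_eq, Finset.coe_insert, Finset.coe_filter, Set.mem_insert_iff, hUmem]
      constructor
      · rintro ⟨h1, h2⟩
        by_cases h0 : v = 0
        · exact Or.inl h0
        · exact Or.inr ⟨⟨h0, h2⟩, h1⟩
      · rintro (h0 | h0)
        · rw [h0]
          refine ⟨fun i _ => rfl, ?_⟩
          simp [B]
        · exact ⟨h0.2, h0.1.2⟩
    rw [h1, Set.ncard_coe_finset, Finset.card_insert_of_notMem]
    · push_cast; ring
    · intro h0
      exact ((hUmem 0).mp (Finset.mem_filter.mp h0).1).1 rfl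
  have hUcard : 2 * ((U.card : ℤ) + 1) = 4 ^ n + 2 ^ n := by
    have h1 := hSA Finset.univ
    have h2 : U.filter (fun v => ∀ i, i ∉ (Finset.univ : Finset (Fin n)) → v i = 0) = U := by
      refine Finset.filter_true_of_mem (fun v _ i hi => absurd (Finset.mem_univ i) hi)
    rw [h2, Finset.card_univ, Fintype.card_fin, Even.neg_pow hn] at h1
    exact h1
  have hcount : ∀ v ∈ U, (N v : ℝ) * (2 ^ n + 2) = 2 * L.card := by
    intro v hv
    have h1 : ∑ w ∈ U, N w = U.card * N v := by
      rw [Finset.sum_congr rfl (fun w hw => hNeq w hw v hv), Finset.sum_const, smul_eq_mul]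
    have hn1 : n ≠ 0 := by
      rintro rfl
      have := ((hUmem v).mp hv).1
      exact this (funext fun i => i.elim0)
    have h2n : (2 : ℝ) ≤ 2 ^ n := by
      calc (2 : ℝ) = 2 ^ 1 := by norm_num
        _ ≤ 2 ^ n := pow_le_pow_right₀ (by norm_num) (Nat.one_le_iff_ne_zero.mpr hn1)
    have h2 : (U.card : ℝ) * N v = L.card * (2 ^ n - 1) := by
      have h3 : ((U.card * N v : ℕ) : ℝ) = ((L.card * (2 ^ n - 1) : ℕ) : ℝ) := by
        rw [← h1, hsumN]
      push_cast [Nat.one_le_two_pow] at h3
      exact h3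
    have h4 : 2 * ((U.card : ℝ) + 1) = 4 ^ n + 2 ^ n := by exact_mod_cast hUcard
    have h5 : (4 : ℝ) ^ n = 2 ^ n * 2 ^ n := by
      rw [← mul_pow]; norm_num
    have h6 : (U.card : ℝ) = (2 ^ n - 1) * (2 ^ n + 2) / 2 := by
      rw [h5] at h4
      linarith
    rw [h6] at h2
    have h7 : ((2 : ℝ) ^ n - 1) ≠ 0 := by
      have : (0 : ℝ) < 2 ^ n - 1 := by linarith
      exact ne_of_gt this
    have h8 : ((2 : ℝ) ^ n - 1) * (N v * (2 ^ n + 2)) = (2 ^ n - 1) * (2 * L.card) := by linarith
    exact mul_left_cancel₀ h7 h8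
  -- the bad sets
  set P : Finset (Finset (Fin n)) := Finset.powersetCard k Finset.univ with hP
  have hPcard : P.card = n.choose k := by
    rw [hP, Finset.card_powersetCard, Finset.card_univ, Fintype.card_fin]
  have hbad : ∀ C ∈ L, ∀ A ∈ P, (if ¬ Good C A then (3 : ℝ) else 0) ≤
      ((U.filter (fun v => ∀ i, i ∉ A → v i = 0)).filter (fun v => v ∈ C)).card := by
    intro C hCL A _
    by_cases hgg : Good C A
    · rw [if_neg (not_not.mpr hgg)]
      positivity
    · rw [if_pos hgg]
      have hg := hgg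
      unfold Good at hg
      push Not at hg
      obtain ⟨v, hvC, hvA, hv0⟩ := hg
      have hCH := (hmem C).mp hCL
      have hJC := hCH.2 v hvC
      have hJJ : J (J v) = J v + v := by
        funext i
        simp only [J, Pi.add_apply]
        ext <;> simp [add_comm]
      have hJ0 : J v ≠ 0 := by
        intro h
        apply hv0
        have h1 : J (J v) = 0 := by rw [h]; funext i; simp [J]
        rw [hJJ, h, zero_add] at h1
        exact h1
      have hne1 : J v ≠ v := by
        intro h
        have h1 := hJJ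
        rw [h, h] at h1
        exact hv0 (by simpa using h1)
      have h2v : ∀ w : Vc n, w + w = 0 := fun w => by
        funext i
        ext
        · exact CharTwo.add_self_eq_zero _
        · exact CharTwo.add_self_eq_zero _
      have hs0 : J v + v ≠ 0 := by
        intro h
        apply hne1
        have : J v + v + v = v := by rw [h, zero_add]
        rwa [add_assoc, h2v, add_zero] at this
      have hsub : ({v, J v, J v + v} : Finset (Vc n)) ⊆
          (U.filter (fun v => ∀ i, i ∉ A → v i = 0)).filter (fun v => v ∈ C) := by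
        intro w hw
        simp only [Finset.mem_insert, Finset.mem_singleton] at hw
        have hJA : ∀ i, i ∉ A → J v i = 0 := fun i hi => by
          simp [J, hvA i hi]
        simp only [Finset.mem_filter, hUmem]
        rcases hw with rfl | rfl | rfl
        · exact ⟨⟨⟨hv0, hiso C hCL _ hvC⟩, hvA⟩, hvC⟩
        · exact ⟨⟨⟨hJ0, hiso C hCL _ hJC⟩, hJA⟩, hJC⟩
        · refine ⟨⟨⟨hs0, hiso C hCL _ (add_mem hJC hvC)⟩, fun i hi => ?_⟩, add_mem hJC hvC⟩
          rw [Pi.add_apply, hJA i hi, hvA i hi, add_zero]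
      have h3 := Finset.card_le_card hsub
      have h4 : ({v, J v, J v + v} : Finset (Vc n)).card = 3 := by
        rw [Finset.card_insert_of_notMem, Finset.card_insert_of_notMem, Finset.card_singleton]
        · rw [Finset.mem_singleton]
          intro h
          apply hv0
          have : J v + J v = J v + (J v + v) := by rw [← h]
          rw [h2v, ← add_assoc, h2v, zero_add] at this
          exact this.symm
        · simp only [Finset.mem_insert, Finset.mem_singleton, not_or]
          refine ⟨fun h => hne1 h.symm, fun h => hJ0 ?_⟩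
          have : v + v = J v + v + v := by rw [← h]
          rw [h2v, add_assoc, h2v, add_zero] at this
          exact this.symm
      rw [h4] at h3
      exact_mod_cast h3
  have hS : ∑ C ∈ L, ∑ A ∈ P, (if ¬ Good C A then (3 : ℝ) else 0) ≤
      L.card * ((n.choose k : ℝ) * (((4 : ℝ) ^ k + (-2) ^ k - 2) / (2 ^ n + 2))) := by
    have h1 : ∑ C ∈ L, ∑ A ∈ P, (if ¬ Good C A then (3 : ℝ) else 0) ≤
        ∑ C ∈ L, ∑ A ∈ P,
          (((U.filter (fun v => ∀ i, i ∉ A → v i = 0)).filter (fun v => v ∈ C)).card : ℝ) :=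
      Finset.sum_le_sum fun C hCL => Finset.sum_le_sum fun A hA => hbad C hCL A hA
    refine h1.trans (le_of_eq ?_)
    rw [Finset.sum_comm]
    have h2 : ∀ A ∈ P, ∑ C ∈ L,
        (((U.filter (fun v => ∀ i, i ∉ A → v i = 0)).filter (fun v => v ∈ C)).card : ℝ) =
        L.card * (((4 : ℝ) ^ k + (-2) ^ k - 2) / (2 ^ n + 2)) := by
      intro A hA
      have hAk : A.card = k := (Finset.mem_powersetCard.mp hA).2
      have h3 : ∑ C ∈ L,
          ((U.filter (fun v => ∀ i, i ∉ A → v i = 0)).filter (fun v => v ∈ C)).card =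
          ∑ v ∈ U.filter (fun v => ∀ i, i ∉ A → v i = 0), N v := by
        simp only [hNdef, Finset.card_filter]
        exact Finset.sum_comm
      have h4 : ∑ C ∈ L,
          (((U.filter (fun v => ∀ i, i ∉ A → v i = 0)).filter (fun v => v ∈ C)).card : ℝ) =
          ∑ v ∈ U.filter (fun v => ∀ i, i ∉ A → v i = 0), (N v : ℝ) := by
        exact_mod_cast h3
      rw [h4]
      have hpos : (0 : ℝ) < 2 ^ n + 2 := by positivity
      have h5 : ∀ v ∈ U.filter (fun v => ∀ i, i ∉ A → v i = 0), (N v : ℝ) =
          2 * L.card / (2 ^ n + 2) := by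
        intro v hv
        rw [eq_div_iff hpos.ne']
        exact hcount v (Finset.mem_filter.mp hv).1
      rw [Finset.sum_congr rfl h5, Finset.sum_const, nsmul_eq_mul]
      have h6 := hSA A
      rw [hAk] at h6
      have h7 : 2 * (((U.filter (fun v => ∀ i, i ∉ A → v i = 0)).card : ℝ) + 1) =
          4 ^ k + (-2) ^ k := by exact_mod_cast h6
      have h8 : ((U.filter (fun v => ∀ i, i ∉ A → v i = 0)).card : ℝ) =
          (4 ^ k + (-2) ^ k - 2) / 2 := by linarith
      rw [h8]
      field_simp
    rw [Finset.sum_congr rfl h2, Finset.sum_const, hPcard, nsmul_eq_mul]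
    ring
  -- a code with few bad sets
  obtain ⟨C, hCL, hCle⟩ : ∃ C ∈ L, ∑ A ∈ P, (if ¬ Good C A then (3 : ℝ) else 0) ≤
      (n.choose k : ℝ) * (((4 : ℝ) ^ k + (-2) ^ k - 2) / (2 ^ n + 2)) := by
    by_contra hcon
    push Not at hcon
    have h1 := Finset.sum_lt_sum_of_nonempty hLne hcon
    rw [Finset.sum_const, nsmul_eq_mul] at h1
    linarith
  refine ⟨C, (hmem C).mp hCL, ?_⟩
  have h1 : (Set.ncard {A : Finset (Fin n) | A.card = k ∧ Good C A} : ℝ) =
      ∑ A ∈ P, (if Good C A then (1 : ℝ) else 0) := by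
    rw [Finset.sum_ite, Finset.sum_const_zero, add_zero, Finset.sum_const, nsmul_eq_mul, mul_one,
      ← Set.ncard_coe_finset]
    congr 2
    ext A
    simp [hP, Finset.mem_powersetCard]
  have h2 : ∑ A ∈ P, (if Good C A then (1 : ℝ) else 0) =
      (n.choose k : ℝ) - (∑ A ∈ P, (if ¬ Good C A then (3 : ℝ) else 0)) / 3 := by
    rw [← hPcard, Finset.sum_div, Finset.card_eq_sum_ones, Nat.cast_sum, ← Finset.sum_sub_distrib]
    refine Finset.sum_congr rfl fun A _ => ?_
    by_cases h : Good C A <;> simp [h]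
  rw [h1, h2]
  have h3 : (1 - ((4 : ℝ) ^ k + (-2) ^ k - 2) / (3 * (2 ^ n + 2))) * (n.choose k) =
      (n.choose k : ℝ) - ((n.choose k : ℝ) * (((4 : ℝ) ^ k + (-2) ^ k - 2) / (2 ^ n + 2))) / 3 := by
    have hpos : (0 : ℝ) < 2 ^ n + 2 := by positivity
    field_simp
  rw [h3]
  linarith

end Pool.Agent.N984.QX
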