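import Mathlib

/-!
# Project QX (helper984): quantum extremal numbers, page MP_450e1b_mp.
Definitions and the statements of the parts.
-/

set_option autoImplicit false

namespace Pool.Agent.N984.QX

/-- The configuration which is `a` on `A` and `b` outside `A`. -/
def glue {n : ℕ} (A : Finset (Fin n)) (a : {i // i ∈ A} → ZMod 2) (b : {i // i ∉ A} → ZMod 2) :
    Fin n → ZMod 2 :=
  fun i => if h : i ∈ A then a ⟨i, h⟩ else b ⟨i, h⟩

/-- The matrix `M_A` of a state `ψ` of `n` qubits (an amplitude for each configuration in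
`{0,1}^n = (ZMod 2)^n`). -/
noncomputable def mat {n : ℕ} (ψ : (Fin n → ZMod 2) → ℂ) (A : Finset (Fin n)) :
    Matrix ({i // i ∈ A} → ZMod 2) ({i // i ∉ A} → ZMod 2) ℂ :=
  Matrix.of fun a b => ψ (glue A a b)

/-- `ψ` is maximally mixed on `A`: the reduced density matrix `M_A M_A^*` is `2^(-|A|)` times the
identity. -/
def MaxMixed {n : ℕ} (ψ : (Fin n → ZMod 2) → ℂ) (A : Finset (Fin n)) : Prop :=
  mat ψ A * (mat ψ A).conjTranspose = ((2 : ℂ) ^ A.card)⁻¹ • (1 : Matrix _ _ ℂ)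

/-- `ψ` is normalised. -/
def Normalised {n : ℕ} (ψ : (Fin n → ZMod 2) → ℂ) : Prop := ∑ x, ‖ψ x‖ ^ 2 = 1

open Classical in
/-- The number of `k`-element sets on which `ψ` is maximally mixed. -/
noncomputable def numMixed {n : ℕ} (k : ℕ) (ψ : (Fin n → ZMod 2) → ℂ) : ℕ :=
  ((Finset.powersetCard k Finset.univ).filter (MaxMixed ψ)).card

/-- The quantum extremal number. -/
noncomputable def Qex (n k : ℕ) : ℕ :=
  sSup {m | ∃ ψ : (Fin n → ZMod 2) → ℂ, Normalised ψ ∧ m = numMixed k ψ}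

/-! ### Codes. The field with four elements is `ZMod 2 × ZMod 2`. -/

/-- Vectors of length `n` over the field with four elements. -/
abbrev Vc (n : ℕ) := Fin n → ZMod 2 × ZMod 2

/-- The symplectic (trace Hermitian) form. -/
def B {n : ℕ} (v w : Vc n) : ZMod 2 := ∑ i, ((v i).1 * (w i).2 + (v i).2 * (w i).1)

/-- Multiplication by a primitive element of the field with four elements. -/
def J {n : ℕ} (v : Vc n) : Vc n := fun i => ((v i).2, (v i).1 + (v i).2)

/-- Self-dual additive codes. -/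
def SelfDual {n : ℕ} (C : Submodule (ZMod 2) (Vc n)) : Prop :=
  ∀ v, v ∈ C ↔ ∀ w ∈ C, B v w = 0

/-- The Hermitian self-dual linear codes. -/
def Herm (n : ℕ) : Set (Submodule (ZMod 2) (Vc n)) :=
  {C | SelfDual C ∧ ∀ v ∈ C, J v ∈ C}

/-- No nonzero code word is supported in `A`. -/
def Good {n : ℕ} (C : Submodule (ZMod 2) (Vc n)) (A : Finset (Fin n)) : Prop :=
  ∀ v ∈ C, (∀ i, i ∉ A → v i = 0) → v = 0

/-! ### The leaves -/

/-- STATE. The stabilizer state of a self-dual code is maximally mixed on the good sets. -/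
def S_STATE : Prop :=
  ∀ (n : ℕ) (C : Submodule (ZMod 2) (Vc n)), SelfDual C →
    ∃ ψ : (Fin n → ZMod 2) → ℂ, Normalised ψ ∧ ∀ A, Good C A → MaxMixed ψ A

/-- TRANS. Each nonzero isotropic vector is in the same number of Hermitian self-dual codes. -/
def S_TRANS : Prop :=
  ∀ (n : ℕ) (v w : Vc n), v ≠ 0 → w ≠ 0 → B v (J v) = 0 → B w (J w) = 0 →
    Set.ncard {C ∈ Herm n | v ∈ C} = Set.ncard {C ∈ Herm n | w ∈ C}

/-- CARD. A self-dual code has `2^n` elements. -/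
def S_CARD : Prop :=
  ∀ (n : ℕ) (C : Submodule (ZMod 2) (Vc n)), SelfDual C → Nat.card C = 2 ^ n

/-- NE. There is a Hermitian self-dual code if `n` is even. -/
def S_NE : Prop := ∀ n : ℕ, Even n → (Herm n).Nonempty

/-- ISO. The number of isotropic vectors (vectors of even weight) supported in `A`. -/
def S_ISO : Prop :=
  ∀ (n : ℕ) (A : Finset (Fin n)),
    2 * (Set.ncard {v : Vc n | (∀ i, i ∉ A → v i = 0) ∧ B v (J v) = 0} : ℤ) =
      4 ^ A.card + (-2) ^ A.card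

/-- AVG. A good code exists. -/
def S_AVG : Prop :=
  ∀ n k : ℕ, Even n → ∃ C ∈ Herm n,
    (1 - ((4 : ℝ) ^ k + (-2) ^ k - 2) / (3 * (2 ^ n + 2))) * (n.choose k) ≤
      Set.ncard {A : Finset (Fin n) | A.card = k ∧ Good C A}

/-- QEX. The supremum in the definition of `Qex` is over a bounded set. -/
def S_QEX : Prop :=
  ∀ (n k : ℕ) (ψ : (Fin n → ZMod 2) → ℂ), Normalised ψ → numMixed k ψ ≤ Qex n k

/-- RED. Measuring one qubit. -/
def S_RED : Prop :=
  ∀ n k : ℕ, (k + 1) * Qex (n + 1) (k + 1) ≤ (n + 1) * Qex n k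

/-- The final lower bound, for all `n` and `k`. -/
def S_LOW : Prop :=
  (∀ n k : ℕ, Even n → (1 - ((4 : ℝ) ^ k + (-2) ^ k - 2) / (3 * (2 ^ n + 2))) * (n.choose k) ≤
      Qex n k) ∧
  (∀ n k : ℕ, Odd n → (1 - ((4 : ℝ) ^ (k + 1) + (-2) ^ (k + 1) - 2) / (3 * (2 ^ (n + 1) + 2))) *
      (n.choose k) ≤ Qex n k)

/-- LIM. Consequences. -/
def S_LIM : Prop :=
  (∀ ε : ℝ, 0 < ε → ∃ N : ℕ, ∀ n ≥ N, (2 / 3 - ε) * (n.choose (n / 2)) ≤ Qex n (n / 2)) ∧
  (∀ ε : ℝ, 0 < ε → ∃ D : ℕ, ∀ n k : ℕ, 2 * k + D ≤ n → (1 - ε) * (n.choose k) ≤ Qex n k) ∧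
  612 ≤ Qex 12 6

end Pool.Agent.N984.QX
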