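import Pool.Agent.N984.QX.AVG
import Pool.Agent.N985.QX.STATE
import Pool.Agent.N985.QX.LOW
import Pool.Agent.N985.QX.EX12
import Pool.Agent.N986.QX.NE
import Pool.Agent.N986.QX.RED
import Pool.Agent.N987.QX.TRANS
import Pool.Agent.N987.QX.LIM
import Pool.Agent.N881.QX.CARD
import Pool.Agent.N432.QX.ISO

/-!
# Project QX (helper984): the lower bounds
-/

set_option autoImplicit false

namespace Pool.Agent.N984.QX

theorem avg : S_AVG :=
  t_AVG Pool.Agent.N987.QX.t_TRANS Pool.Agent.N881.QX.t_CARD Pool.Agent.N986.QX.t_NE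
    Pool.Agent.N432.QX.t_ISO

theorem low : S_LOW :=
  Pool.Agent.N985.QX.LOW.t_LOW Pool.Agent.N985.QX.STATE.t_STATE avg Pool.Agent.N985.QX.LOW.t_QEX
    Pool.Agent.N986.QX.t_RED

theorem lim : S_LIM := Pool.Agent.N987.QX.t_LIM low

theorem ex12 : 720 ≤ Qex 12 6 :=
  Pool.Agent.N985.QX.EX12.t_EX12 Pool.Agent.N985.QX.STATE.t_STATE Pool.Agent.N985.QX.LOW.t_QEX

end Pool.Agent.N984.QX
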