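import Pool.Agent.N984.QX.Stm2

/-!
# Project QX (helper984): the form with sequences
-/

set_option autoImplicit false

open Filter Topology

namespace Pool.Agent.N984.QX

/-- SEQ. The form of IFF with sequences. -/
def S_SEQ : Prop :=
  ∀ n k : ℕ → ℕ, Tendsto n atTop atTop → (∀ i, 2 * k i ≤ n i) →
    (Tendsto (fun i => (Qex (n i) (k i) : ℝ) / (n i).choose (k i)) atTop (𝓝 1) ↔
      Tendsto (fun i => n i - 2 * k i) atTop atTop)

theorem t_SEQ (h : S_IFF) (hle : ∀ n k : ℕ, Qex n k ≤ n.choose k) : S_SEQ := by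
  intro n k hn hk
  obtain ⟨h1, h2⟩ := h
  have hpos : ∀ i, (0 : ℝ) < (n i).choose (k i) := fun i => by
    have : 0 < (n i).choose (k i) := Nat.choose_pos (by have := hk i; omega)
    exact_mod_cast this
  constructor
  · intro ht
    rw [tendsto_atTop_atTop]
    by_contra hcon
    push Not at hcon
    obtain ⟨D, hD⟩ := hcon
    obtain ⟨ε, hε, N, hN⟩ := h2 D
    have h3 : ∀ᶠ i in atTop, 1 - ε < (Qex (n i) (k i) : ℝ) / (n i).choose (k i) :=
      ht.eventually (lt_mem_nhds (by linarith))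
    have h4 : ∀ᶠ i in atTop, N ≤ n i := hn.eventually (eventually_ge_atTop N)
    obtain ⟨i0, hi0⟩ := eventually_atTop.mp (h3.and h4)
    obtain ⟨i, hi, hlt⟩ := hD i0
    obtain ⟨h5, h6⟩ := hi0 i hi
    have h7 := hN (n i) (k i) h6 (hk i) (by omega)
    rw [lt_div_iff₀ (hpos i)] at h5
    linarith
  · intro ht
    rw [Metric.tendsto_atTop]
    intro ε hε
    obtain ⟨D, hD⟩ := h1 (ε / 2) (by linarith)
    obtain ⟨i0, hi0⟩ := eventually_atTop.mp (ht.eventually (eventually_ge_atTop D))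
    refine ⟨i0, fun i hi => ?_⟩
    have h3 := hD (n i) (k i) (by have := hi0 i hi; have := hk i; omega)
    have h4 : (Qex (n i) (k i) : ℝ) / (n i).choose (k i) ≤ 1 := by
      rw [div_le_one (hpos i)]
      exact_mod_cast hle _ _
    have h5 : 1 - ε / 2 ≤ (Qex (n i) (k i) : ℝ) / (n i).choose (k i) := by
      rw [le_div_iff₀ (hpos i)]
      exact h3
    rw [Real.dist_eq, abs_sub_lt_iff]
    constructor <;> linarith

end Pool.Agent.N984.QX
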