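import Pool.Agent.N984.QX.Fin1
import Pool.Agent.N984.QX.SEQ
import Pool.Agent.N195.QX.WEV
import Pool.Agent.N285.QX.DUAL
import Pool.Agent.N219.QX.CORE
import Pool.Agent.N402.QX.CORE0
import Pool.Agent.N793.QX.AV
import Pool.Agent.N288.QX.Asm
import Pool.Agent.N94.QX.SUBM
import Pool.Agent.N1.QX.IFF

/-!
# Project QX (helper984): the upper bounds and the consequences
-/

set_option autoImplicit false

namespace Pool.Agent.N984.QX

theorem core : S_CORE :=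
  Pool.Agent.N219.QX.t_CORE Pool.Agent.N195.QX.t_EV0 Pool.Agent.N195.QX.t_WEV
    Pool.Agent.N285.QX.t_DUAL

theorem core0 : S_CORE0 :=
  Pool.Agent.N402.QX.t_CORE0 Pool.Agent.N195.QX.t_EV0 Pool.Agent.N195.QX.t_WEV
    Pool.Agent.N285.QX.t_DUAL

theorem up0 : S_UP0 := Pool.Agent.N288.QX.t_UP0 Pool.Agent.N793.QX.t_AV core0 Pool.Agent.N288.QX.t_ATT

theorem upc : S_UPC :=
  Pool.Agent.N288.QX.t_UPC Pool.Agent.N793.QX.t_AV core Pool.Agent.N94.QX.t_SUBM
    Pool.Agent.N288.QX.t_ATT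

theorem iff : S_IFF := Pool.Agent.N1.QX.t_IFF low up0 upc lim

theorem le_choose (n k : ℕ) : Qex n k ≤ n.choose k := by
  obtain ⟨ψ, -, h⟩ := Pool.Agent.N288.QX.t_ATT n k
  omega

theorem seq : S_SEQ := t_SEQ iff le_choose

end Pool.Agent.N984.QX
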